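import Mathlib
import Pool.Agent.Helper29_TDG.Stmts
import Pool.Agent.Helper53_TDG.Comp

/-!
# TDG, modules EL3 and EL4
-/

set_option autoImplicit false
set_option linter.unusedSectionVars false

namespace Pool.Agent.TDG.H18

open Finset Helper77.TDG Pool.Agent.TDG

lemma rho2_le (p : ℕ) : rho2 p ≤ 2 := by
  unfold rho2
  split_ifs <;> norm_num

theorem el4 (hBF : BFStmt) : EL4Stmt := by
  intro V X _ _ _ N Hv K B hW hK hB hne
  have hG := GG_formula (N := N) hB
  have hr := rs_nonneg (N := N) (Hv := Hv) (U := K) B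
  refine ⟨fun hbad => ?_, fun hbad hs => ?_, fun hbad hs => ?_⟩
  · obtain ⟨_, h2, h3⟩ := hBF V X N Hv K B hW hbad (hB.trans sdiff_subset) hne
    have hg := gv_bad hbad
    have hs : sf N Hv K B = - ph N K B := by
      unfold sf
      rw [h3]
      simp
    rw [hs] at hG ⊢
    omega
  · have hg := gv_not_bad hbad
    have h1 := rho2_le (Phi N Hv K)
    omega
  · have hg := gv_not_bad hbad
    have h1 := rho2_le (Phi N Hv K)
    omega

section

variable {V X : Type} [Fintype V] [DecidableEq V] [DecidableEq X] {N : V → Finset X}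
  {Hv U R T : Finset X}

lemma mem_HH {D : Finset X} : D ∈ HH N Hv U R T ↔ D ∈ bc N Hv U T ∧ (R ∩ D).Nonempty := by
  unfold HH
  rw [mem_filter]

lemma HH_closed : Closed N (U \ T) ((HH N Hv U R T).biUnion id) := by
  constructor
  · intro x hx
    rw [mem_biUnion] at hx
    obtain ⟨D, hD, hxD⟩ := hx
    exact (mem_bc.1 (mem_HH.1 hD).1).1.1 hxD
  · intro v hv x hx
    obtain ⟨y, hy⟩ := hv
    rw [mem_inter, mem_biUnion] at hy
    obtain ⟨hyv, D, hD, hyD⟩ := hy
    rw [mem_biUnion]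
    refine ⟨D, hD, ?_⟩
    exact (mem_bc.1 (mem_HH.1 hD).1).1.2 v ⟨y, mem_inter.2 ⟨hyv, hyD⟩⟩ hx

lemma comps_HH : comps N ((HH N Hv U R T).biUnion id) = HH N Hv U R T := by
  ext K
  rw [mem_comps_closed HH_closed]
  constructor
  · rintro ⟨h1, h2⟩
    obtain ⟨x, hx⟩ := comps_nonempty h1
    have hx' := h2 hx
    rw [mem_biUnion] at hx'
    obtain ⟨D, hD, hxD⟩ := hx'
    have hDc := bc_subset_comps (mem_HH.1 hD).1
    have : K = D := comps_eq_of_meets h1 hDc ⟨x, mem_inter.2 ⟨hx, hxD⟩⟩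
    rw [this]
    exact hD
  · intro h
    exact ⟨bc_subset_comps (mem_HH.1 h).1, subset_biUnion_of_mem id h⟩

theorem el3_aux (hBF : BFStmt) (hW : World N Hv) (hR : R ⊆ U \ Hv) (hT : T ⊆ U \ Hv) :
    GG N Hv U (Rt N Hv U R T) + 2 * ((HH N Hv U R T).card : ℤ) ≤ GG N Hv U (R ∪ T) := by
  set H := (HH N Hv U R T).biUnion id with hH
  have hcl : Closed N (U \ T) H := HH_closed
  have hHU : H ⊆ U \ T := hcl.1
  have hRt : Rt N Hv U R T = (R ∪ T) \ H := rfl
  have hTU : T ⊆ U := hT.trans sdiff_subset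
  have hRU : R ⊆ U := hR.trans sdiff_subset
  -- closed in the complement of Rt
  have hsub : U \ ((R ∪ T) \ H) ⊆ U \ T := by
    intro x hx
    rw [mem_sdiff, mem_sdiff, mem_union] at hx
    rw [mem_sdiff]
    refine ⟨hx.1, fun hxT => hx.2 ⟨Or.inr hxT, fun hxH => ?_⟩⟩
    exact (mem_sdiff.1 (hHU hxH)).2 hxT
  have hcl1 : Closed N (U \ ((R ∪ T) \ H)) H := by
    refine hcl.restrict ?_ hsub
    intro x hx
    rw [mem_sdiff, mem_sdiff]
    exact ⟨(mem_sdiff.1 (hHU hx)).1, fun h => h.2 hx⟩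
  have hcl2 : Closed N (U \ (R ∪ T)) (H \ R) := by
    have h1 := hcl.sdiff_closed R
    have h2 : (U \ T) \ R = U \ (R ∪ T) := by
      ext x
      simp only [mem_sdiff, mem_union]
      tauto
    rwa [h2] at h1
  have hrest : (U \ ((R ∪ T) \ H)) \ H = (U \ (R ∪ T)) \ (H \ R) := by
    ext x
    have h3 : x ∈ H → x ∈ U ∧ x ∉ T := fun h => mem_sdiff.1 (hHU h)
    simp only [mem_sdiff, mem_union]
    tauto
  have e1 := sum_comps_split hcl1 (fun K => gv N Hv K)
  have e2 := sum_comps_split hcl2 (fun K => gv N Hv K)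
  have e3 : ∑ K ∈ comps N H, gv N Hv K = ∑ K ∈ HH N Hv U R T, gv N Hv K := by
    rw [hH, comps_HH]
  have e4 : ∑ K ∈ comps N (H \ R), gv N Hv K =
      ∑ D ∈ HH N Hv U R T, ∑ K ∈ comps N (D \ R), gv N Hv K := by
    rw [sum_comps_sdiff R (fun K => gv N Hv K), hH, comps_HH]
  have hpd : ((HH N Hv U R T : Finset (Finset X)) : Set (Finset X)).PairwiseDisjoint
      fun D => R ∩ D := by
    intro D hD D' hD' hne
    have h1 := comps_disjoint (bc_subset_comps (mem_HH.1 (mem_coe.1 hD)).1)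
      (bc_subset_comps (mem_HH.1 (mem_coe.1 hD')).1) hne
    exact h1.mono inter_subset_right inter_subset_right
  have hinter : (R ∪ T) ∩ H = (HH N Hv U R T).biUnion fun D => R ∩ D := by
    ext x
    rw [mem_inter, mem_union, hH, mem_biUnion, mem_biUnion]
    constructor
    · rintro ⟨h1, D, hD, hxD⟩
      refine ⟨D, hD, mem_inter.2 ⟨?_, hxD⟩⟩
      rcases h1 with h1 | h1
      · exact h1
      · have h2 := hHU (mem_biUnion.2 ⟨D, hD, hxD⟩)
        exact absurd h1 (mem_sdiff.1 h2).2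
    · rintro ⟨D, hD, hxD⟩
      exact ⟨Or.inl (mem_inter.1 hxD).1, D, hD, (mem_inter.1 hxD).2⟩
  have hcard : ((R ∪ T).card : ℤ) = ((R ∪ T) \ H).card +
      ∑ D ∈ HH N Hv U R T, ((R ∩ D).card : ℤ) := by
    have h1 := card_sdiff_add_card_inter (R ∪ T) H
    rw [hinter, card_biUnion hpd] at h1
    rw [← h1]
    push_cast
    rfl
  have hBFs : ∑ D ∈ HH N Hv U R T, (gv N Hv D + 2) ≤
      ∑ D ∈ HH N Hv U R T, (2 * ((R ∩ D).card : ℤ) + ∑ K ∈ comps N (D \ R), gv N Hv K) := by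
    refine sum_le_sum fun D hD => ?_
    have h1 := (hBF V X N Hv D (R ∩ D) hW (mem_bc.1 (mem_HH.1 hD).1).2 inter_subset_right
      (mem_HH.1 hD).2).1
    have h2 : GG N Hv D (R ∩ D) =
        2 * ((R ∩ D).card : ℤ) + ∑ K ∈ comps N (D \ R), gv N Hv K := by
      unfold GG
      have h3 : D \ (R ∩ D) = D \ R := by
        ext x
        simp only [mem_sdiff, mem_inter]
        tauto
      rw [h3]
    rw [← h2]
    exact h1
  rw [sum_add_distrib, sum_add_distrib, ← mul_sum, sum_const, nsmul_eq_mul] at hBFs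
  rw [hRt]
  unfold GG
  rw [e1, e2, e3, e4, hrest, hcard]
  linarith

end

theorem el3 (hBF : BFStmt) : EL3Stmt := by
  intro V X _ _ _ N Hv U R T hW hR hT
  exact el3_aux hBF hW hR hT

end Pool.Agent.TDG.H18
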